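import Pool.Agent.Helper717.LT.Defs

/-!
# Lieb-Thirring: Sobolev functions and isometries
-/

set_option autoImplicit false

open MeasureTheory Set Filter Topology Real
open scoped Matrix

namespace Pool.Agent.Q155.LT

open LTd

/-- the isometry `x ↦ O x + b` as a homeomorphism -/
def mv {d : ℕ} (O : Matrix (Fin d) (Fin d) ℝ) (h1 : Oᵀ * O = 1) (h2 : O * Oᵀ = 1)
    (b : Fin d → ℝ) : (Fin d → ℝ) ≃ₜ (Fin d → ℝ) where
  toFun x := O.mulVec x + b
  invFun y := Oᵀ.mulVec (y - b)
  left_inv x := by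
    simp only [add_sub_cancel_right, Matrix.mulVec_mulVec, h1, Matrix.one_mulVec]
  right_inv y := by
    simp only [Matrix.mulVec_mulVec, h2, Matrix.one_mulVec, sub_add_cancel]
  continuous_toFun := by fun_prop
  continuous_invFun := by fun_prop

variable {d : ℕ} {O : Matrix (Fin d) (Fin d) ℝ}

theorem mv_apply (h1 : Oᵀ * O = 1) (h2 : O * Oᵀ = 1) (b x : Fin d → ℝ) :
    mv O h1 h2 b x = O.mulVec x + b := rfl

theorem mv_mp (h1 : Oᵀ * O = 1) (h2 : O * Oᵀ = 1) (b : Fin d → ℝ) :
    MeasurePreserving (mv O h1 h2 b) (volume : Measure (Fin d → ℝ)) volume := by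
  have hdet : O.det * O.det = 1 := by
    have h := congrArg Matrix.det h1
    rwa [Matrix.det_mul, Matrix.det_transpose, Matrix.det_one] at h
  have hd0 : O.det ≠ 0 := by
    intro h
    rw [h] at hdet
    norm_num at hdet
  have habs : |O.det| = 1 := by
    have h3 : |O.det| * |O.det| = 1 := by rw [← abs_mul, hdet, abs_one]
    nlinarith [abs_nonneg O.det]
  have hlin : MeasurePreserving (Matrix.toLin' O) (volume : Measure (Fin d → ℝ)) volume := by
    refine ⟨(LinearMap.continuous_of_finiteDimensional _).measurable, ?_⟩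
    rw [Real.map_matrix_volume_pi_eq_smul_volume_pi hd0, abs_inv, habs, inv_one,
      ENNReal.ofReal_one, one_smul]
  have hadd := measurePreserving_add_right (volume : Measure (Fin d → ℝ)) b
  have h := hadd.comp hlin
  have e : (mv O h1 h2 b : (Fin d → ℝ) → Fin d → ℝ) = (fun x => x + b) ∘ (Matrix.toLin' O) := by
    funext x
    rfl
  rw [e]
  exact h

theorem pd_comp (h1 : Oᵀ * O = 1) (h2 : O * Oᵀ = 1) (b : Fin d → ℝ) {ψ : (Fin d → ℝ) → ℝ}
    (hψ : ContDiff ℝ (⊤ : ℕ∞) ψ) (k : Fin d) (x : Fin d → ℝ) :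
    pd k (fun x => ψ (mv O h1 h2 b x)) x = ∑ l, O l k * pd l ψ (mv O h1 h2 b x) := by
  have hL : HasFDerivAt (fun x : Fin d → ℝ => mv O h1 h2 b x)
      (LinearMap.toContinuousLinearMap (Matrix.toLin' O)) x := by
    have h3 : HasFDerivAt (fun x : Fin d → ℝ => Matrix.toLin' O x)
        (LinearMap.toContinuousLinearMap (Matrix.toLin' O)) x :=
      (LinearMap.toContinuousLinearMap (Matrix.toLin' O)).hasFDerivAt
    exact h3.add_const b
  have hψd : HasFDerivAt ψ (fderiv ℝ ψ (mv O h1 h2 b x)) (mv O h1 h2 b x) :=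
    ((hψ.differentiable (by simp)) _).hasFDerivAt
  have hc := hψd.comp x hL
  have e : (ψ ∘ fun x : Fin d → ℝ => mv O h1 h2 b x) = fun x => ψ (mv O h1 h2 b x) := rfl
  rw [e] at hc
  unfold pd
  rw [hc.fderiv]
  rw [ContinuousLinearMap.comp_apply]
  have e2 : (LinearMap.toContinuousLinearMap (Matrix.toLin' O)) (Pi.single k (1:ℝ)) =
      fun l => O l k := by
    funext l
    simp [Matrix.toLin'_apply]
  rw [e2]
  have h4 := LinearMap.pi_apply_eq_sum_univ
    ((fderiv ℝ ψ (mv O h1 h2 b x)) : (Fin d → ℝ) →ₗ[ℝ] ℝ) (fun l => O l k)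
  simp only [smul_eq_mul] at h4
  rw [ContinuousLinearMap.coe_coe] at h4
  rw [h4]
  refine Finset.sum_congr rfl fun l _ => ?_
  congr 2
  funext j
  by_cases hj : l = j
  · subst hj; simp
  · rw [if_neg hj, Pi.single_eq_of_ne (Ne.symm hj)]

/-- a Sobolev function composed with an isometry -/
theorem wgrad_comp {u : (Fin d → ℝ) → ℂ} {g : Fin d → (Fin d → ℝ) → ℂ} (h : WGradC u g)
    (h1 : Oᵀ * O = 1) (h2 : O * Oᵀ = 1) (b : Fin d → ℝ) :
    WGradC (fun x => u (mv O h1 h2 b x))
      (fun k x => ∑ l, (O l k : ℂ) * g l (mv O h1 h2 b x)) := by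
  have hmp := mv_mp h1 h2 b
  have hme : MeasurableEmbedding (mv O h1 h2 b) := (mv O h1 h2 b).measurableEmbedding
  refine ⟨h.f2.comp_measurePreserving hmp, fun k => ?_, fun k φ hφ hs => ?_⟩
  · exact memLp_finsetSum _ fun l _ =>
      ((h.g2 l).comp_measurePreserving hmp).const_mul (O l k : ℂ)
  · set τ := mv O h1 h2 b with hτ
    let ψ : (Fin d → ℝ) → ℝ := fun y => φ (τ.symm y)
    have hsymm : ∀ y, τ.symm y = Oᵀ.mulVec (y - b) := fun y => rfl
    have hψ : ContDiff ℝ (⊤ : ℕ∞) ψ := by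
      have h3 : ContDiff ℝ (⊤ : ℕ∞) (fun y : Fin d → ℝ => Matrix.toLin' Oᵀ (y - b)) :=
        (LinearMap.toContinuousLinearMap (Matrix.toLin' Oᵀ)).contDiff.comp
          (contDiff_id.sub contDiff_const)
      exact hφ.comp h3
    have hψs : HasCompactSupport ψ := hs.comp_homeomorph τ.symm
    have hφψ : ∀ x, φ x = ψ (τ x) := fun x => by
      show φ x = φ (τ.symm (τ x))
      rw [τ.symm_apply_apply]
    have hpdψ : ∀ l, Continuous (pd l ψ) := fun l => by
      have h5 : Continuous (fderiv ℝ ψ) := hψ.continuous_fderiv (by simp)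
      exact h5.clm_apply continuous_const
    have hpdψs : ∀ l, HasCompactSupport (pd l ψ) := fun l => by
      have h5 : HasCompactSupport (fderiv ℝ ψ) := hψs.fderiv (𝕜 := ℝ)
      exact h5.comp_left (g := fun L : (Fin d → ℝ) →L[ℝ] ℝ => L (Pi.single l 1)) rfl
    have i1 : ∀ l, Integrable (fun y => u y * (pd l ψ y : ℂ)) := fun l => by
      have h6 : MemLp (fun y => (pd l ψ y : ℂ)) 2 volume :=
        ((hpdψ l).memLp_of_hasCompactSupport (hpdψs l)).ofReal
      exact h.f2.integrable_mul h6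
    have i2 : ∀ l, Integrable (fun y => g l y * (ψ y : ℂ)) := fun l => by
      have h6 : MemLp (fun y => (ψ y : ℂ)) 2 volume :=
        ((hψ.continuous).memLp_of_hasCompactSupport hψs).ofReal
      exact (h.g2 l).integrable_mul h6
    have e1 : ∫ x, u (τ x) * (pd k φ x : ℂ) = ∑ l, (O l k : ℂ) * ∫ y, u y * (pd l ψ y : ℂ) := by
      have e2 : ∀ x, u (τ x) * (pd k φ x : ℂ) =
          (fun y => ∑ l, (O l k : ℂ) * (u y * (pd l ψ y : ℂ))) (τ x) := by
        intro x
        have e3 : pd k φ x = ∑ l, O l k * pd l ψ (τ x) := by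
          have : φ = fun x => ψ (τ x) := funext hφψ
          rw [this]
          exact pd_comp h1 h2 b hψ k x
        rw [e3]
        push_cast
        rw [Finset.mul_sum]
        exact Finset.sum_congr rfl fun l _ => by ring
      rw [integral_congr_ae (Eventually.of_forall e2),
        hmp.integral_comp hme (fun y => ∑ l, (O l k : ℂ) * (u y * (pd l ψ y : ℂ))),
        integral_finsetSum _ fun l _ => (i1 l).const_mul _]
      exact Finset.sum_congr rfl fun l _ => integral_const_mul _ _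
    have e4 : ∫ x, (∑ l, (O l k : ℂ) * g l (τ x)) * (φ x : ℂ) =
        ∑ l, (O l k : ℂ) * ∫ y, g l y * (ψ y : ℂ) := by
      have e5 : ∀ x, (∑ l, (O l k : ℂ) * g l (τ x)) * (φ x : ℂ) =
          (fun y => ∑ l, (O l k : ℂ) * (g l y * (ψ y : ℂ))) (τ x) := by
        intro x
        rw [hφψ x, Finset.sum_mul]
        exact Finset.sum_congr rfl fun l _ => by ring
      rw [integral_congr_ae (Eventually.of_forall e5),
        hmp.integral_comp hme (fun y => ∑ l, (O l k : ℂ) * (g l y * (ψ y : ℂ))),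
        integral_finsetSum _ fun l _ => (i2 l).const_mul _]
      exact Finset.sum_congr rfl fun l _ => integral_const_mul _ _
    rw [e1, e4, ← Finset.sum_neg_distrib]
    refine Finset.sum_congr rfl fun l _ => ?_
    rw [h.weak l ψ hψ hψs]
    ring

/-- the length of the gradient is preserved -/
theorem norm_grad (h2 : O * Oᵀ = 1) (z : Fin d → ℂ) :
    ∑ k, ‖∑ l, (O l k : ℂ) * z l‖ ^ 2 = ∑ l, ‖z l‖ ^ 2 := by
  have key : ∀ v : Fin d → ℝ, ∑ k, (∑ l, O l k * v l) ^ 2 = ∑ l, v l ^ 2 := by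
    intro v
    have e1 : ∀ k, ∑ l, O l k * v l = (Oᵀ.mulVec v) k := fun k => by
      simp [Matrix.mulVec, dotProduct]
    have e2 : ∑ k, (Oᵀ.mulVec v) k ^ 2 = dotProduct (Oᵀ.mulVec v) (Oᵀ.mulVec v) := by
      simp [dotProduct, sq]
    have e3 : ∑ l, v l ^ 2 = dotProduct v v := by simp [dotProduct, sq]
    simp only [e1]
    rw [e2, e3, Matrix.dotProduct_mulVec, ← Matrix.mulVec_transpose, Matrix.transpose_transpose,
      Matrix.mulVec_mulVec, h2, Matrix.one_mulVec]
  have hsq : ∀ w : ℂ, ‖w‖ ^ 2 = w.re ^ 2 + w.im ^ 2 := by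
    intro w
    rw [Complex.sq_norm, Complex.normSq_apply]; ring
  simp only [hsq, Finset.sum_add_distrib]
  rw [← key fun l => (z l).re, ← key fun l => (z l).im]
  congr 1
  · refine Finset.sum_congr rfl fun k _ => ?_
    congr 1
    rw [Complex.re_sum]
    exact Finset.sum_congr rfl fun l _ => by simp
  · refine Finset.sum_congr rfl fun k _ => ?_
    congr 1
    rw [Complex.im_sum]
    exact Finset.sum_congr rfl fun l _ => by simp

end Pool.Agent.Q155.LT
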