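import Pool.Agent.Q155.LT.Sym

/-!
# Lieb-Thirring: frame bounds from bounds on overlaps
-/

set_option autoImplicit false

open MeasureTheory Set Filter Topology Real
open scoped Matrix

namespace Pool.Agent.Q155.LT

open LTd Pool.Agent.Q232.LT

variable {d : ℕ} {κ : Type} [Fintype κ]

theorem norm_sq_int (V : κ → (Fin d → ℝ) → ℂ) (hV : ∀ j, MemLp (V j) 2 volume) (c : κ → ℂ) :
    ∫ x, ‖∑ j, c j * V j x‖ ^ 2 =
      (∑ j, ∑ k, (starRingEnd ℂ) (c j) * c k * ∫ x, (starRingEnd ℂ) (V j x) * V k x).re := by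
  have hint : ∀ i j, Integrable (fun x => (starRingEnd ℂ) (V i x) * V j x) volume := by
    intro i j
    have h1 : MemLp (fun x => (starRingEnd ℂ) (V i x)) 2 volume := (hV i).star
    exact h1.integrable_mul (hV j)
  have hU : ∀ x, ((‖∑ j, c j * V j x‖ ^ 2 : ℝ) : ℂ) =
      ∑ i, ∑ j, ((starRingEnd ℂ) (c i) * c j) * ((starRingEnd ℂ) (V i x) * V j x) := by
    intro x
    have h1 : ((‖∑ j, c j * V j x‖ ^ 2 : ℝ) : ℂ) =
        (starRingEnd ℂ) (∑ j, c j * V j x) * ∑ j, c j * V j x := by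
      rw [Complex.conj_mul']
      push_cast
      rfl
    rw [h1]
    simp only [map_sum, map_mul, Finset.sum_mul_sum]
    exact Finset.sum_congr rfl fun i _ => Finset.sum_congr rfl fun j _ => by ring
  have h2 : ((∫ x, ‖∑ j, c j * V j x‖ ^ 2 : ℝ) : ℂ) =
      ∑ j, ∑ k, (starRingEnd ℂ) (c j) * c k * ∫ x, (starRingEnd ℂ) (V j x) * V k x := by
    rw [← integral_complex_ofReal]
    simp only [hU]
    rw [integral_finsetSum _ fun i _ => integrable_finsetSum _ fun j _ => (hint i j).const_mul _]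
    refine Finset.sum_congr rfl fun i _ => ?_
    rw [integral_finsetSum _ fun j _ => (hint i j).const_mul _]
    simp only [integral_const_mul]
  rw [← h2, Complex.ofReal_re]

theorem frame_of_gram (V : κ → (Fin d → ℝ) → ℂ) (hV : ∀ j, MemLp (V j) 2 volume) {B : ℝ}
    (hB : 0 < B) (hG : ∀ c : κ → ℂ, ∫ x, ‖∑ j, c j * V j x‖ ^ 2 ≤ B * ∑ j, ‖c j‖ ^ 2)
    (f : (Fin d → ℝ) → ℝ) (hf : MemLp f 2 volume) :
    ∑ j, ‖∫ x, (f x : ℂ) * V j x‖ ^ 2 ≤ B * ∫ x, f x ^ 2 := by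
  set a : κ → ℂ := fun j => ∫ x, (f x : ℂ) * V j x with ha
  set c : κ → ℂ := fun j => (starRingEnd ℂ) (a j) with hc
  have hcn : ∀ j, ‖c j‖ ^ 2 = ‖a j‖ ^ 2 := fun j => by rw [hc]; simp
  set S := ∑ j, ‖a j‖ ^ 2 with hS
  let U : (Fin d → ℝ) → ℂ := fun x => ∑ j, c j * V j x
  have hU : MemLp U 2 volume := memLp_finsetSum _ fun j _ => (hV j).const_mul (c j)
  have h1 : ∫ x, ‖U x‖ ^ 2 ≤ B * S := by
    have := hG c
    simp only [hcn] at this
    exact this
  have hfC : MemLp (fun x => (f x : ℂ)) 2 volume := hf.ofReal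
  have hi : ∀ j, Integrable (fun x => (f x : ℂ) * V j x) := fun j => hfC.integrable_mul (hV j)
  have hfU : Integrable (fun x => (f x : ℂ) * U x) := hfC.integrable_mul hU
  have h2 : ∫ x, (f x : ℂ) * U x = (S : ℂ) := by
    have e1 : ∀ x, (f x : ℂ) * U x = ∑ j, c j * ((f x : ℂ) * V j x) := fun x => by
      simp only [U]
      rw [Finset.mul_sum]
      exact Finset.sum_congr rfl fun j _ => by ring
    simp only [e1]
    rw [integral_finsetSum _ fun j _ => (hi j).const_mul _]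
    simp only [integral_const_mul]
    rw [hS]
    push_cast
    refine Finset.sum_congr rfl fun j _ => ?_
    rw [hc]
    exact Complex.conj_mul' _
  have h3 : ∫ x, f x * (U x).re = S := by
    have h4 := integral_re hfU
    rw [h2] at h4
    have h5 : RCLike.re ((S : ℝ) : ℂ) = S := Complex.ofReal_re S
    rw [h5] at h4
    rw [← h4]
    refine integral_congr_ae (Eventually.of_forall fun x => ?_)
    simp
  have hUr : MemLp (fun x => (U x).re) 2 volume := hU.re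
  have i1 : Integrable (fun x => f x ^ 2) := hf.integrable_sq
  have i2 : Integrable (fun x => (U x).re ^ 2) := hUr.integrable_sq
  have i3 : Integrable (fun x => f x * (U x).re) := hf.integrable_mul hUr
  have i4 : Integrable (fun x => ‖U x‖ ^ 2) := hU.integrable_norm_pow two_ne_zero
  have h6 : ∫ x, (U x).re ^ 2 ≤ ∫ x, ‖U x‖ ^ 2 := by
    refine integral_mono i2 i4 fun x => ?_
    show (U x).re ^ 2 ≤ ‖U x‖ ^ 2
    rw [hsq]
    linarith [sq_nonneg (U x).im]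
  have h7 : 0 ≤ ∫ x, (B * f x - (U x).re) ^ 2 := integral_nonneg fun x => sq_nonneg _
  have e2 : ∫ x, (B * f x - (U x).re) ^ 2 =
      B ^ 2 * (∫ x, f x ^ 2) - 2 * B * (∫ x, f x * (U x).re) + ∫ x, (U x).re ^ 2 := by
    have e3 : ∀ x, (B * f x - (U x).re) ^ 2 =
        (B ^ 2 * f x ^ 2 - 2 * B * (f x * (U x).re)) + (U x).re ^ 2 := fun x => by ring
    simp only [e3]
    have i5 : Integrable (fun x => B ^ 2 * f x ^ 2 - 2 * B * (f x * (U x).re)) :=
      (i1.const_mul _).sub (i3.const_mul _)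
    rw [integral_add i5 i2,
      integral_sub (i1.const_mul _) (i3.const_mul _), integral_const_mul, integral_const_mul]
  rw [e2, h3] at h7
  have h8 : 0 ≤ B * (B * (∫ x, f x ^ 2) - S) := by nlinarith
  have h9 := nonneg_of_mul_nonneg_right h8 hB
  linarith

theorem sym_main (d : ℕ) (hd : 1 ≤ d) (M N : ℕ) (hM : 1 ≤ M) (B : ℝ) (hB : 0 < B)
    (u : Fin N → (Fin d → ℝ) → ℂ) (g : Fin N → Fin d → (Fin d → ℝ) → ℂ)
    (hu : ∀ n, WGradC (u n) (g n))
    (O : Fin M → Matrix (Fin d) (Fin d) ℝ) (h1 : ∀ i, (O i)ᵀ * O i = 1)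
    (b : Fin M → Fin d → ℝ)
    (hρ : ∀ i, ∀ᵐ x, ∑ n, ‖u n ((O i).mulVec x + b i)‖ ^ 2 = ∑ n, ‖u n x‖ ^ 2)
    (hG : ∀ c : Fin M → Fin N → ℂ, ∫ x, ‖∑ i, ∑ n, c i n * u n ((O i).mulVec x + b i)‖ ^ 2 ≤
      B * ∑ i, ∑ n, ‖c i n‖ ^ 2) :
    Integrable (fun x => (∑ n, ‖u n x‖ ^ 2) ^ (1 + 2 / (d:ℝ))) ∧
    (3 * (M:ℝ) ^ 2 / (4 * B ^ 2)) ^ (1 / (d:ℝ)) * Kcl d *
      ∫ x, (∑ n, ‖u n x‖ ^ 2) ^ (1 + 2 / (d:ℝ)) ≤ ∑ n, ∑ k, ∫ x, ‖g n k x‖ ^ 2 := by
  have hM0 : (0:ℝ) < M := by exact_mod_cast hM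
  have h2 : ∀ i, O i * (O i)ᵀ = 1 := fun i => mul_eq_one_comm.mp (h1 i)
  have hL : ∀ i n, MemLp (fun x => u n ((O i).mulVec x + b i)) 2 volume := fun i n =>
    (hu n).f2.comp_measurePreserving (mv_mp (h1 i) (h2 i) (b i))
  have h := frame_main d hd 1 (B / M) one_pos (by positivity) M N u g hu (fun _ => (M:ℝ)⁻¹)
    (fun _ => by positivity) (by
      rw [Finset.sum_const, Finset.card_univ, Fintype.card_fin, nsmul_eq_mul,
        mul_inv_cancel₀ hM0.ne']) O h1 b (by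
      have h3 : ∀ᵐ x, ∀ i, ∑ n, ‖u n ((O i).mulVec x + b i)‖ ^ 2 = ∑ n, ‖u n x‖ ^ 2 :=
        ae_all_iff.mpr hρ
      filter_upwards [h3] with x hx
      simp only [hx]
      rw [Finset.sum_const, Finset.card_univ, Fintype.card_fin, nsmul_eq_mul, ← mul_assoc,
        mul_inv_cancel₀ hM0.ne']) (by
      intro f hf
      have h4 := frame_of_gram (κ := Fin M × Fin N)
        (fun j x => u j.2 ((O j.1).mulVec x + b j.1)) (fun j => hL j.1 j.2) hB (by
          intro c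
          have h5 := hG (fun i n => c (i, n))
          simp only [Fintype.sum_prod_type]
          exact h5) f hf
      simp only [Fintype.sum_prod_type] at h4
      rw [← Finset.mul_sum, div_eq_inv_mul, mul_assoc]
      exact mul_le_mul_of_nonneg_left h4 (by positivity))
  have e : (3 * (1:ℝ) ^ (d + 2) / (4 * (B / M) ^ 2)) = 3 * (M:ℝ) ^ 2 / (4 * B ^ 2) := by
    rw [one_pow]
    field_simp
  rw [e] at h
  exact h

theorem two_gram (N : ℕ) (β : ℝ)
    (u : Fin N → (Fin d → ℝ) → ℂ) (hu : ∀ n, MemLp (u n) 2 volume)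
    (ho : ∀ i j, ∫ x, (starRingEnd ℂ) (u i x) * u j x = if i = j then 1 else 0)
    (O : Matrix (Fin d) (Fin d) ℝ) (h1 : Oᵀ * O = 1) (b : Fin d → ℝ)
    (hov : ∀ c c' : Fin N → ℂ, 2 * (∑ n, ∑ k, (starRingEnd ℂ) (c n) * c' k *
      ∫ x, (starRingEnd ℂ) (u n x) * u k (O.mulVec x + b)).re ≤
        β * ∑ n, (‖c n‖ ^ 2 + ‖c' n‖ ^ 2)) (c c' : Fin N → ℂ) :
    ∫ x, ‖∑ n, c n * u n x + ∑ n, c' n * u n (O.mulVec x + b)‖ ^ 2 ≤
      (1 + β) * ∑ n, (‖c n‖ ^ 2 + ‖c' n‖ ^ 2) := by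
  have h2 : O * Oᵀ = 1 := mul_eq_one_comm.mp h1
  have hmp := mv_mp h1 h2 b
  have hme : MeasurableEmbedding (mv O h1 h2 b) := (mv O h1 h2 b).measurableEmbedding
  have hL : ∀ n, MemLp (fun x => u n (O.mulVec x + b)) 2 volume := fun n =>
    (hu n).comp_measurePreserving hmp
  obtain ⟨i1, v1⟩ := gram_val u hu ho c
  obtain ⟨i2, v2⟩ := gram_val u hu ho c'
  have i3 : Integrable (fun x => ‖∑ n, c' n * u n (O.mulVec x + b)‖ ^ 2) :=
    hmp.integrable_comp_of_integrable i2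
  have v3 : ∫ x, ‖∑ n, c' n * u n (O.mulVec x + b)‖ ^ 2 = ∑ i, ‖c' i‖ ^ 2 := by
    rw [← v2]
    exact hmp.integral_comp hme (fun y => ‖∑ n, c' n * u n y‖ ^ 2)
  have hint : ∀ n k, Integrable (fun x => (starRingEnd ℂ) (u n x) * u k (O.mulVec x + b)) := by
    intro n k
    have h3 : MemLp (fun x => (starRingEnd ℂ) (u n x)) 2 volume := (hu n).star
    exact h3.integrable_mul (hL k)
  let W : (Fin d → ℝ) → ℂ := fun x =>
    ∑ n, ∑ k, (starRingEnd ℂ) (c n) * c' k * ((starRingEnd ℂ) (u n x) * u k (O.mulVec x + b))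
  have hWi : Integrable W := integrable_finsetSum _ fun n _ => integrable_finsetSum _
    fun k _ => (hint n k).const_mul _
  have hWv : ∫ x, W x = ∑ n, ∑ k, (starRingEnd ℂ) (c n) * c' k *
      ∫ x, (starRingEnd ℂ) (u n x) * u k (O.mulVec x + b) := by
    simp only [W]
    rw [integral_finsetSum _ fun i _ => integrable_finsetSum _ fun j _ => (hint i j).const_mul _]
    refine Finset.sum_congr rfl fun i _ => ?_
    rw [integral_finsetSum _ fun j _ => (hint i j).const_mul _]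
    simp only [integral_const_mul]
  have hWr : ∫ x, (W x).re = (∫ x, W x).re := integral_re hWi
  have e : ∀ x, ‖∑ n, c n * u n x + ∑ n, c' n * u n (O.mulVec x + b)‖ ^ 2 =
      (‖∑ n, c n * u n x‖ ^ 2 + ‖∑ n, c' n * u n (O.mulVec x + b)‖ ^ 2) + 2 * (W x).re := by
    intro x
    have hWx : W x = (starRingEnd ℂ) (∑ n, c n * u n x) * ∑ n, c' n * u n (O.mulVec x + b) := by
      simp only [W, map_sum, map_mul, Finset.sum_mul_sum]
      exact Finset.sum_congr rfl fun i _ => Finset.sum_congr rfl fun j _ => by ring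
    rw [hWx, hsq, hsq, hsq, Complex.mul_re, Complex.conj_re, Complex.conj_im, Complex.add_re,
      Complex.add_im]
    ring
  simp only [e]
  have i4 : Integrable (fun x => ‖∑ n, c n * u n x‖ ^ 2 +
      ‖∑ n, c' n * u n (O.mulVec x + b)‖ ^ 2) := i1.add i3
  have i5 : Integrable (fun x => 2 * (W x).re) := hWi.re.const_mul 2
  rw [integral_add i4 i5, integral_add i1 i3, v1, v3, integral_const_mul, hWr, hWv]
  have h4 := hov c c'
  rw [Finset.sum_add_distrib] at h4 ⊢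
  linarith

theorem orth_gram (M N : ℕ)
    (u : Fin N → (Fin d → ℝ) → ℂ) (hu : ∀ n, MemLp (u n) 2 volume)
    (ho : ∀ i j, ∫ x, (starRingEnd ℂ) (u i x) * u j x = if i = j then 1 else 0)
    (O : Fin M → Matrix (Fin d) (Fin d) ℝ) (h1 : ∀ i, (O i)ᵀ * O i = 1) (b : Fin M → Fin d → ℝ)
    (hov : ∀ i j, i ≠ j → ∀ n k, ∫ x, (starRingEnd ℂ) (u n ((O i).mulVec x + b i)) *
      u k ((O j).mulVec x + b j) = 0) (c : Fin M → Fin N → ℂ) :
    ∫ x, ‖∑ i, ∑ n, c i n * u n ((O i).mulVec x + b i)‖ ^ 2 ≤ 1 * ∑ i, ∑ n, ‖c i n‖ ^ 2 := by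
  have h2 : ∀ i, O i * (O i)ᵀ = 1 := fun i => mul_eq_one_comm.mp (h1 i)
  have hL : ∀ i n, MemLp (fun x => u n ((O i).mulVec x + b i)) 2 volume := fun i n =>
    (hu n).comp_measurePreserving (mv_mp (h1 i) (h2 i) (b i))
  have hself : ∀ i n k, ∫ x, (starRingEnd ℂ) (u n ((O i).mulVec x + b i)) *
      u k ((O i).mulVec x + b i) = if n = k then 1 else 0 := fun i n k => by
    rw [← ho n k]
    exact (mv_mp (h1 i) (h2 i) (b i)).integral_comp
      (mv (O i) (h1 i) (h2 i) (b i)).measurableEmbedding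
      (fun y => (starRingEnd ℂ) (u n y) * u k y)
  have h := norm_sq_int (κ := Fin M × Fin N)
    (fun j x => u j.2 ((O j.1).mulVec x + b j.1)) (fun j => hL j.1 j.2) (fun j => c j.1 j.2)
  have e1 : ∀ j : Fin M × Fin N, ∑ k : Fin M × Fin N, (starRingEnd ℂ) (c j.1 j.2) * c k.1 k.2 *
      ∫ x, (starRingEnd ℂ) (u j.2 ((O j.1).mulVec x + b j.1)) *
        u k.2 ((O k.1).mulVec x + b k.1) = ((‖c j.1 j.2‖ ^ 2 : ℝ) : ℂ) := by
    intro j
    rw [Finset.sum_eq_single j]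
    · rw [hself, if_pos rfl, mul_one, Complex.conj_mul']
      push_cast
      rfl
    · rintro ⟨i', k⟩ _ hne
      by_cases hi : j.1 = i'
      · subst hi
        rw [hself, if_neg, mul_zero]
        intro hk
        exact hne (Prod.ext rfl hk.symm)
      · rw [hov _ _ hi, mul_zero]
    · intro h
      exact absurd (Finset.mem_univ j) h
  simp only [e1] at h
  rw [← Complex.ofReal_sum, Complex.ofReal_re] at h
  simp only [Fintype.sum_prod_type] at h
  rw [h, one_mul]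

end Pool.Agent.Q155.LT
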