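import Pool.Agent.Q155.LT.Move
import Pool.Agent.Q232.LT.Gram

/-!
# Lieb-Thirring: systems whose density has symmetries
-/

set_option autoImplicit false

open MeasureTheory Set Filter Topology Real
open scoped Matrix

namespace Pool.Agent.Q155.LT

open LTd Pool.Agent.Q232.LT

theorem hsq (z : ℂ) : ‖z‖ ^ 2 = z.re ^ 2 + z.im ^ 2 := by
  rw [Complex.sq_norm, Complex.normSq_apply]; ring

theorem wsmul {d : ℕ} (s : ℝ) {f : (Fin d → ℝ) → ℝ} {g : Fin d → (Fin d → ℝ) → ℝ}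
    (h : WGrad f g) : WGrad (fun x => s * f x) (fun k x => s * g k x) := by
  refine ⟨h.f2.const_mul s, fun k => (h.g2 k).const_mul s, fun k φ hφ hc => ?_⟩
  have := h.weak k φ hφ hc
  simp only [mul_assoc]
  rw [integral_const_mul, integral_const_mul, this]
  ring

theorem norm_int {d : ℕ} {f : (Fin d → ℝ) → ℝ} {U : (Fin d → ℝ) → ℂ} (hf : MemLp f 2 volume)
    (hU : MemLp U 2 volume) :
    ‖∫ x, (f x : ℂ) * U x‖ ^ 2 = (∫ x, f x * (U x).re) ^ 2 + (∫ x, f x * (U x).im) ^ 2 := by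
  have hi : Integrable (fun x => (f x : ℂ) * U x) := (hf.ofReal (K := ℂ)).integrable_mul hU
  rw [hsq]
  congr 2
  · have h := integral_re hi
    rw [show (∫ x, (f x : ℂ) * U x).re = RCLike.re (∫ x, (f x : ℂ) * U x) from rfl, ← h]
    refine integral_congr_ae (Eventually.of_forall fun x => ?_)
    simp
  · have h := integral_im hi
    rw [show (∫ x, (f x : ℂ) * U x).im = RCLike.im (∫ x, (f x : ℂ) * U x) from rfl, ← h]
    refine integral_congr_ae (Eventually.of_forall fun x => ?_)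
    simp

/-- from the frame bound to the Gram bound -/
theorem gram_of_frame {d : ℕ} {κ : Type} [Fintype κ] (F : κ → (Fin d → ℝ) → ℝ)
    (hF : ∀ j, MemLp (F j) 2 volume)
    (h : ∀ f : (Fin d → ℝ) → ℝ, MemLp f 2 volume →
      ∑ j, (∫ x, f x * F j x) ^ 2 ≤ ∫ x, f x ^ 2) (v : κ → ℝ) :
    ∫ x, (∑ j, v j * F j x) ^ 2 ≤ ∑ j, v j ^ 2 := by
  have hA : MemLp (fun x => ∑ j, v j * F j x) 2 volume :=
    memLp_finsetSum _ fun j _ => (hF j).const_mul (v j)
  have h1 := h _ hA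
  have hint : ∀ j, Integrable (fun x => (∑ j, v j * F j x) * F j x) := fun j =>
    hA.integrable_mul (hF j)
  have e1 : ∫ x, (∑ j, v j * F j x) ^ 2 = ∑ j, v j * ∫ x, (∑ j, v j * F j x) * F j x := by
    have e2 : ∀ x, (∑ j, v j * F j x) ^ 2 = ∑ j, v j * ((∑ j, v j * F j x) * F j x) := by
      intro x
      rw [sq]
      nth_rewrite 2 [← Finset.sum_congr rfl fun j _ => rfl]
      rw [Finset.mul_sum]
      exact Finset.sum_congr rfl fun j _ => by ring
    simp only [e2]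
    rw [integral_finsetSum _ fun j _ => (hint j).const_mul (v j)]
    exact Finset.sum_congr rfl fun j _ => integral_const_mul _ _
  have h2 := Finset.sum_mul_sq_le_sq_mul_sq Finset.univ v
    (fun j => ∫ x, (∑ j, v j * F j x) * F j x)
  rw [← e1] at h2
  set I := ∫ x, (∑ j, v j * F j x) ^ 2 with hI
  set V := ∑ j, v j ^ 2 with hV
  have hI0 : 0 ≤ I := integral_nonneg fun x => sq_nonneg _
  have hV0 : 0 ≤ V := Finset.sum_nonneg fun j _ => sq_nonneg _
  have h3 : I ^ 2 ≤ V * I := h2.trans (mul_le_mul_of_nonneg_left h1 hV0)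
  rcases hI0.eq_or_lt with h4 | h4
  · rw [← h4]; exact hV0
  · rw [sq] at h3
    exact le_of_mul_le_mul_right h3 h4

theorem frame_main (d : ℕ) (hd : 1 ≤ d) (θ β : ℝ) (hθ : 0 < θ) (hβ : 0 < β) (M N : ℕ)
    (u : Fin N → (Fin d → ℝ) → ℂ) (g : Fin N → Fin d → (Fin d → ℝ) → ℂ)
    (hu : ∀ n, WGradC (u n) (g n)) (w : Fin M → ℝ) (hw0 : ∀ i, 0 ≤ w i) (hw1 : ∑ i, w i = 1)
    (O : Fin M → Matrix (Fin d) (Fin d) ℝ) (h1 : ∀ i, (O i)ᵀ * O i = 1)
    (b : Fin M → Fin d → ℝ)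
    (hρ : ∀ᵐ x, θ * ∑ n, ‖u n x‖ ^ 2 ≤ ∑ i, w i * ∑ n, ‖u n ((O i).mulVec x + b i)‖ ^ 2)
    (hf : ∀ f : (Fin d → ℝ) → ℝ, MemLp f 2 volume →
      ∑ i, w i * ∑ n, ‖∫ x, (f x : ℂ) * u n ((O i).mulVec x + b i)‖ ^ 2 ≤ β * ∫ x, f x ^ 2) :
    Integrable (fun x => (∑ n, ‖u n x‖ ^ 2) ^ (1 + 2 / (d:ℝ))) ∧
    (3 * θ ^ (d + 2) / (4 * β ^ 2)) ^ (1 / (d:ℝ)) * Kcl d *
      ∫ x, (∑ n, ‖u n x‖ ^ 2) ^ (1 + 2 / (d:ℝ)) ≤ ∑ n, ∑ k, ∫ x, ‖g n k x‖ ^ 2 := by
  obtain ⟨m, rfl⟩ : ∃ m, d = m + 1 := ⟨d - 1, by omega⟩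
  have h2 : ∀ i, O i * (O i)ᵀ = 1 := fun i => mul_eq_one_comm.mp (h1 i)
  set τ : Fin M → (Fin (m + 1) → ℝ) ≃ₜ (Fin (m + 1) → ℝ) := fun i => mv (O i) (h1 i) (h2 i) (b i)
    with hτ
  have hτa : ∀ i x, (O i).mulVec x + b i = τ i x := fun i x => rfl
  simp only [hτa] at hρ hf
  have hmp : ∀ i, MeasurePreserving (τ i) volume volume := fun i => mv_mp (h1 i) (h2 i) (b i)
  have hme : ∀ i, MeasurableEmbedding (τ i) := fun i => (τ i).measurableEmbedding
  set s : Fin M → ℝ := fun i => √(w i / β) with hs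
  have hs2 : ∀ i, s i ^ 2 = w i / β := fun i => Real.sq_sqrt (div_nonneg (hw0 i) hβ.le)
  let F' : (Fin M × Fin N) × Bool → (Fin (m + 1) → ℝ) → ℝ := fun j x =>
    if j.2 then s j.1.1 * (u j.1.2 (τ j.1.1 x)).re else s j.1.1 * (u j.1.2 (τ j.1.1 x)).im
  let Gg : Fin M → Fin N → Fin (m + 1) → (Fin (m + 1) → ℝ) → ℂ := fun i n k x =>
    ∑ l, (O i l k : ℂ) * g n l (τ i x)
  let G' : (Fin M × Fin N) × Bool → Fin (m + 1) → (Fin (m + 1) → ℝ) → ℝ := fun j k x =>
    if j.2 then s j.1.1 * (Gg j.1.1 j.1.2 k x).re else s j.1.1 * (Gg j.1.1 j.1.2 k x).im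
  have hcomp : ∀ i n, WGradC (fun x => u n (τ i x)) (Gg i n) := fun i n =>
    wgrad_comp (hu n) (h1 i) (h2 i) (b i)
  have hW' : ∀ j, WGrad (F' j) (G' j) := by
    rintro ⟨⟨i, n⟩, c⟩
    cases c
    · exact wsmul (s i) (split_complex (hcomp i n)).2
    · exact wsmul (s i) (split_complex (hcomp i n)).1
  have hG' : ∀ v : (Fin M × Fin N) × Bool → ℝ,
      ∫ x, (∑ j, v j * F' j x) ^ 2 ≤ ∑ j, v j ^ 2 := by
    refine gram_of_frame F' (fun j => (hW' j).f2) fun f hfm => ?_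
    have h3 := hf f hfm
    have e1 : ∑ j, (∫ x, f x * F' j x) ^ 2 =
        β⁻¹ * ∑ i, w i * ∑ n, ‖∫ x, (f x : ℂ) * u n (τ i x)‖ ^ 2 := by
      rw [Fintype.sum_prod_type, Fintype.sum_prod_type, Finset.mul_sum]
      refine Finset.sum_congr rfl fun i _ => ?_
      rw [Finset.mul_sum, Finset.mul_sum]
      refine Finset.sum_congr rfl fun n _ => ?_
      rw [Fintype.sum_bool, norm_int hfm (hcomp i n).f2]
      have e2 : ∫ x, f x * F' ((i, n), true) x = s i * ∫ x, f x * (u n (τ i x)).re := by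
        rw [← integral_const_mul]
        refine integral_congr_ae (Eventually.of_forall fun x => ?_)
        simp only [F', if_true]
        ring
      have e3 : ∫ x, f x * F' ((i, n), false) x = s i * ∫ x, f x * (u n (τ i x)).im := by
        rw [← integral_const_mul]
        refine integral_congr_ae (Eventually.of_forall fun x => ?_)
        simp only [F', Bool.false_eq_true, if_false]
        ring
      rw [e2, e3, mul_pow, mul_pow, hs2]
      ring
    rw [e1]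
    rw [inv_mul_le_iff₀ hβ]
    exact h3
  set K := Fintype.card ((Fin M × Fin N) × Bool) with hK
  let e : (Fin M × Fin N) × Bool ≃ Fin K := Fintype.equivFin _
  have hH := real_odd m K (fun i => F' (e.symm i)) (fun i => G' (e.symm i))
    (fun i => hW' (e.symm i)) ∅ (fun j hj => absurd hj (Finset.notMem_empty j)) (by
      intro v
      have h4 := hG' (fun j => v (e j))
      have e4 : ∀ x, ∑ i, v i * F' (e.symm i) x = ∑ j, v (e j) * F' j x := fun x => by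
        rw [← Equiv.sum_comp e]
        simp
      have e5 : ∑ i, v i ^ 2 = ∑ j, v (e j) ^ 2 := by
        rw [← Equiv.sum_comp e]
      simp only [e4]
      rw [e5]
      exact h4)
  have hFs : ∀ x, ∑ i, F' (e.symm i) x ^ 2 =
      β⁻¹ * ∑ i, w i * ∑ n, ‖u n (τ i x)‖ ^ 2 := by
    intro x
    rw [Equiv.sum_comp e.symm (fun j => F' j x ^ 2)]
    rw [Fintype.sum_prod_type, Fintype.sum_prod_type, Finset.mul_sum]
    refine Finset.sum_congr rfl fun i _ => ?_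
    rw [Finset.mul_sum, Finset.mul_sum]
    refine Finset.sum_congr rfl fun n _ => ?_
    rw [Fintype.sum_bool]
    simp only [F', if_true, Bool.false_eq_true, if_false]
    rw [mul_pow, mul_pow, hs2, hsq]
    ring
  have hGs : ∀ x, ∑ k, ∑ i, G' (e.symm i) k x ^ 2 =
      β⁻¹ * ∑ i, w i * ∑ n, ∑ k, ‖g n k (τ i x)‖ ^ 2 := by
    intro x
    rw [Finset.sum_comm]
    rw [Equiv.sum_comp e.symm (fun j => ∑ k, G' j k x ^ 2)]
    rw [Fintype.sum_prod_type, Fintype.sum_prod_type, Finset.mul_sum]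
    refine Finset.sum_congr rfl fun i _ => ?_
    rw [Finset.mul_sum, Finset.mul_sum]
    refine Finset.sum_congr rfl fun n _ => ?_
    rw [Fintype.sum_bool, ← Finset.sum_add_distrib,
      ← norm_grad (h2 i) (fun l => g n l (τ i x)), Finset.mul_sum, Finset.mul_sum]
    refine Finset.sum_congr rfl fun k _ => ?_
    simp only [G', Gg, if_true, Bool.false_eq_true, if_false]
    rw [mul_pow, mul_pow, hs2, hsq]
    ring
  simp only [hFs, hGs, const_final, final_thm_pp] at hH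
  set P : ℝ := 1 + 2 / ((m + 1 : ℕ) : ℝ) with hP
  have hP0 : 0 < P := by positivity
  have hρ0 : ∀ x, 0 ≤ ∑ n, ‖u n x‖ ^ 2 := fun x => Finset.sum_nonneg fun n _ => sq_nonneg _
  have hR0 : ∀ x, 0 ≤ β⁻¹ * ∑ i, w i * ∑ n, ‖u n (τ i x)‖ ^ 2 := fun x =>
    mul_nonneg (inv_nonneg.mpr hβ.le) (Finset.sum_nonneg fun i _ =>
      mul_nonneg (hw0 i) (hρ0 _))
  have hc0 : 0 < (θ / β) ^ P := Real.rpow_pos_of_pos (by positivity) _
  have hle : ∀ᵐ x, (θ / β) ^ P * (∑ n, ‖u n x‖ ^ 2) ^ P ≤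
      (β⁻¹ * ∑ i, w i * ∑ n, ‖u n (τ i x)‖ ^ 2) ^ P := by
    filter_upwards [hρ] with x hx
    rw [← Real.mul_rpow (by positivity) (hρ0 x)]
    refine Real.rpow_le_rpow (mul_nonneg (by positivity) (hρ0 x)) ?_ hP0.le
    rw [div_mul_eq_mul_div, div_eq_inv_mul]
    exact mul_le_mul_of_nonneg_left hx (inv_nonneg.mpr hβ.le)
  have hmeas : AEStronglyMeasurable (fun x => (∑ n, ‖u n x‖ ^ 2) ^ P) volume := by
    have h5 : AEMeasurable (fun x => ∑ n, ‖u n x‖ ^ 2) volume :=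
      Finset.aemeasurable_fun_sum _ fun n _ =>
        ((hu n).f2.aestronglyMeasurable.norm.aemeasurable.pow_const 2)
    exact (h5.pow_const P).aestronglyMeasurable
  have hI1 : Integrable (fun x => (θ / β) ^ P * (∑ n, ‖u n x‖ ^ 2) ^ P) := by
    refine hH.1.mono (hmeas.const_mul _) ?_
    filter_upwards [hle] with x hx
    rw [Real.norm_of_nonneg (mul_nonneg hc0.le (Real.rpow_nonneg (hρ0 x) _)),
      Real.norm_of_nonneg (Real.rpow_nonneg (hR0 x) _)]
    exact hx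
  have hI0 : Integrable (fun x => (∑ n, ‖u n x‖ ^ 2) ^ P) := by
    have := hI1.const_mul (((θ / β) ^ P)⁻¹)
    refine this.congr (Eventually.of_forall fun x => ?_)
    simp only
    rw [← mul_assoc, inv_mul_cancel₀ hc0.ne', one_mul]
  refine ⟨hI0, ?_⟩
  have hI : ∀ n k, Integrable (fun x => ‖g n k x‖ ^ 2) := fun n k =>
    ((hu n).g2 k).integrable_norm_pow two_ne_zero
  have hIτ : ∀ i n k, Integrable (fun x => ‖g n k (τ i x)‖ ^ 2) := fun i n k =>
    (hmp i).integrable_comp_of_integrable (hI n k)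
  have hint : ∫ x, ∑ i, w i * ∑ n, ∑ k, ‖g n k (τ i x)‖ ^ 2 = ∑ n, ∑ k, ∫ x, ‖g n k x‖ ^ 2 := by
    have e1 : ∀ i, ∫ x, w i * ∑ n, ∑ k, ‖g n k (τ i x)‖ ^ 2 =
        w i * ∑ n, ∑ k, ∫ x, ‖g n k x‖ ^ 2 := fun i => by
      rw [integral_const_mul, integral_finsetSum _ (fun n _ => integrable_finsetSum _
        (fun k _ => hIτ i n k))]
      congr 1
      refine Finset.sum_congr rfl fun n _ => ?_
      rw [integral_finsetSum _ (fun k _ => hIτ i n k)]
      refine Finset.sum_congr rfl fun k _ => ?_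
      exact (hmp i).integral_comp (hme i) (fun x => ‖g n k x‖ ^ 2)
    rw [integral_finsetSum _ (fun i _ => (integrable_finsetSum _ (fun n _ =>
      integrable_finsetSum _ (fun k _ => hIτ i n k))).const_mul (w i))]
    simp only [e1]
    rw [← Finset.sum_mul, hw1, one_mul]
  have h5 := hH.2
  rw [integral_const_mul, hint] at h5
  have h6 : ((m + 1 : ℕ) : ℝ) = (m : ℝ) + 1 := by push_cast; ring
  rw [← h6] at h5
  have hD : (0:ℝ) < ((m + 1 : ℕ) : ℝ) := by positivity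
  have hKcl : 0 ≤ Kcl (m + 1) := by unfold Kcl; positivity
  set D : ℝ := ((m + 1 : ℕ) : ℝ) with hDdef
  set A := ∫ x, (∑ n, ‖u n x‖ ^ 2) ^ P with hA
  set T := ∑ n, ∑ k, ∫ x, ‖g n k x‖ ^ 2 with hT
  have hmono : (θ / β) ^ P * A ≤
      ∫ x, (β⁻¹ * ∑ i, w i * ∑ n, ‖u n (τ i x)‖ ^ 2) ^ P := by
    rw [hA, ← integral_const_mul]
    exact integral_mono_ae hI1 hH.1 hle
  have hP1 : P = 1 + 2 * (1 / D) := by rw [hP]; ring
  rw [Finset.card_empty, pow_zero, one_mul] at h5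
  have h7 : (3 / 4) ^ (1 / D) * Kcl (m + 1) * ((θ / β) ^ P * A) ≤ β⁻¹ * T :=
    (mul_le_mul_of_nonneg_left hmono (mul_nonneg (by positivity) hKcl)).trans h5
  have h8 := mul_le_mul_of_nonneg_left h7 hβ.le
  rw [← mul_assoc β β⁻¹, mul_inv_cancel₀ hβ.ne', one_mul] at h8
  refine le_trans (le_of_eq ?_) h8
  have e2 : (θ / β) ^ P = θ / β * ((θ / β) ^ 2) ^ (1 / D) := by
    rw [hP1, Real.rpow_add (by positivity), Real.rpow_one, Real.rpow_mul (by positivity),
      Real.rpow_two]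
  have e3 : (θ ^ (m + 1)) ^ (1 / D) = θ := by
    rw [hDdef, one_div]
    exact Real.pow_rpow_inv_natCast hθ.le (by omega)
  have e4 : (3 * θ ^ (m + 1 + 2) / (4 * β ^ 2)) ^ (1 / D) =
      (3 / 4) ^ (1 / D) * (β * (θ / β * ((θ / β) ^ 2) ^ (1 / D))) := by
    have e5 : β * (θ / β * ((θ / β) ^ 2) ^ (1 / D)) =
        (θ ^ (m + 1)) ^ (1 / D) * ((θ / β) ^ 2) ^ (1 / D) := by
      rw [e3]
      field_simp
    rw [e5, ← Real.mul_rpow (by positivity) (by positivity),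
      ← Real.mul_rpow (by norm_num) (by positivity)]
    congr 1
    field_simp
    ring
  rw [e4, ← e2]
  ring

end Pool.Agent.Q155.LT
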